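import Pool.Agent.H33R3.Bom.Stmts3

set_option autoImplicit false

namespace Pool.Agent.H33R3.Bom.V323

open Complex Metric Set Filter Topology Pool.Agent.H33R3.Bom

noncomputable def Sg (q m : ℕ → ℝ) (ε : ℝ) (w : ℂ) : ℂ :=
  ∑' j : ℕ, (I * ε * q j + (ε : ℂ) ^ 2 * m j) * w ^ j

noncomputable def yy (q m : ℕ → ℝ) (ε : ℝ) (w : ℂ) : ℂ := 1 - w + w * Sg q m ε w

lemma ff_eq (q m : ℕ → ℝ) (ε : ℝ) (w : ℂ) : ff q m ε w = w / (yy q m ε w) ^ 2 := rfl

lemma term_le {q : ℕ → ℝ} {ρ C : ℝ} (hq : ∀ j, |q j| ≤ C * ρ ^ j) {w : ℂ} (hw : ‖w‖ ≤ 1) (j : ℕ) :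
    ‖(q j : ℂ) * w ^ j‖ ≤ C * ρ ^ j := by
  rw [norm_mul, norm_pow, Complex.norm_real, Real.norm_eq_abs]
  calc |q j| * ‖w‖ ^ j ≤ |q j| * 1 := by
        gcongr
        exact pow_le_one₀ (norm_nonneg _) hw
    _ ≤ C * ρ ^ j := by rw [mul_one]; exact hq j

lemma summ {q : ℕ → ℝ} {ρ C : ℝ} (h0 : 0 < ρ) (h1 : ρ < 1) (hq : ∀ j, |q j| ≤ C * ρ ^ j) {w : ℂ}
    (hw : ‖w‖ ≤ 1) : Summable (fun j : ℕ => (q j : ℂ) * w ^ j) :=
  Summable.of_norm_bounded ((summable_geometric_of_lt_one h0.le h1).mul_left C)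
    (fun j => term_le hq hw j)

lemma hq_eq (q : ℕ → ℝ) (z : ℂ) : hq q z = z * ∑' j : ℕ, (q j : ℂ) * (z ^ 2) ^ j := by
  unfold hq
  rw [← tsum_mul_left]
  congr 1
  funext j
  ring

lemma Sg_eq {q m : ℕ → ℝ} {ρ C : ℝ} (ε : ℝ) (h0 : 0 < ρ) (h1 : ρ < 1)
    (hq : ∀ j, |q j| ≤ C * ρ ^ j) (hm : ∀ j, |m j| ≤ C * ρ ^ j) {w : ℂ} (hw : ‖w‖ ≤ 1) :
    Sg q m ε w = I * ε * (∑' j : ℕ, (q j : ℂ) * w ^ j) +
      (ε : ℂ) ^ 2 * ∑' j : ℕ, (m j : ℂ) * w ^ j := by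
  unfold Sg
  rw [← tsum_mul_left, ← tsum_mul_left,
    ← ((summ h0 h1 hq hw).mul_left (I * ε)).tsum_add ((summ h0 h1 hm hw).mul_left ((ε : ℂ) ^ 2))]
  congr 1
  funext j
  ring

lemma zGG {q m : ℕ → ℝ} {ρ C : ℝ} (ε : ℝ) (h0 : 0 < ρ) (h1 : ρ < 1)
    (hq' : ∀ j, |q j| ≤ C * ρ ^ j) (hm : ∀ j, |m j| ≤ C * ρ ^ j) {z : ℂ} (hz : ‖z‖ < 1)
    (hz0 : z ≠ 0) : z * GG q m ε z = yy q m ε (z ^ 2) := by
  have hw : ‖z ^ 2‖ ≤ 1 := by
    rw [norm_pow]
    exact pow_le_one₀ (norm_nonneg _) hz.le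
  unfold yy GG
  rw [Sg_eq ε h0 h1 hq' hm hw, hq_eq, hq_eq]
  have h2 : z * (1 / z) = 1 := by rw [mul_one_div, div_self hz0]
  linear_combination h2

lemma diffS {q m : ℕ → ℝ} {ρ C : ℝ} (ε : ℝ) (h0 : 0 < ρ) (h1 : ρ < 1)
    (hq' : ∀ j, |q j| ≤ C * ρ ^ j) (hm : ∀ j, |m j| ≤ C * ρ ^ j) :
    DifferentiableOn ℂ (Sg q m ε) (ball 0 1) := by
  unfold Sg
  refine Complex.differentiableOn_tsum_of_summable_norm
    (u := fun j => (|ε| + ε ^ 2) * (C * ρ ^ j))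
    (((summable_geometric_of_lt_one h0.le h1).mul_left C).mul_left _) ?_ isOpen_ball ?_
  · intro j
    exact ((differentiable_id.pow j).const_mul _).differentiableOn
  · intro j w hw
    have hw1 : ‖w‖ ≤ 1 := by
      rw [mem_ball_zero_iff] at hw
      exact hw.le
    have e1 : (I * ε * q j + (ε : ℂ) ^ 2 * m j) * w ^ j =
        I * ε * ((q j : ℂ) * w ^ j) + (ε : ℂ) ^ 2 * ((m j : ℂ) * w ^ j) := by ring
    rw [e1]
    refine (norm_add_le _ _).trans ?_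
    rw [norm_mul, norm_mul, norm_mul ((ε : ℂ) ^ 2), norm_pow, Complex.norm_I, one_mul,
      Complex.norm_real, Real.norm_eq_abs, sq_abs, add_mul]
    gcongr
    · exact term_le hq' hw1 j
    · exact term_le hm hw1 j

theorem taskV : TaskV := by
  intro q m ρ C ε h0 h1 hq' hm hinj
  have hdS := diffS ε h0 h1 hq' hm
  have hdy : DifferentiableOn ℂ (yy q m ε) (ball 0 1) := by
    unfold yy
    exact ((differentiableOn_const _).sub differentiableOn_id).add (differentiableOn_id.mul hdS)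
  have hy0 : yy q m ε 0 = 1 := by simp [yy]
  have hsq : ∀ w ∈ ball (0 : ℂ) 1, ∃ z ∈ ball (0 : ℂ) 1, z ^ 2 = w := by
    intro w hw
    obtain ⟨z, hz⟩ := IsAlgClosed.exists_pow_nat_eq w (show 0 < 2 by norm_num)
    refine ⟨z, ?_, hz⟩
    rw [mem_ball_zero_iff] at hw ⊢
    rw [← hz, norm_pow] at hw
    by_contra hcon
    push Not at hcon
    nlinarith [norm_nonneg z]
  have hneg : ∀ z ∈ ball (0 : ℂ) 1, -z ∈ ball (0 : ℂ) 1 := by
    intro z hz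
    rw [mem_ball_zero_iff] at hz ⊢
    rwa [norm_neg]
  have hG : ∀ z ∈ ball (0 : ℂ) 1, z ≠ 0 → z * GG q m ε z = yy q m ε (z ^ 2) := by
    intro z hz hz0
    exact zGG ε h0 h1 hq' hm (mem_ball_zero_iff.1 hz) hz0
  have hodd : ∀ z ∈ ball (0 : ℂ) 1, z ≠ 0 → GG q m ε (-z) = -GG q m ε z := by
    intro z hz hz0
    have e1 := hG z hz hz0
    have e2 := hG (-z) (hneg z hz) (neg_ne_zero.2 hz0)
    rw [neg_sq, ← e1] at e2
    have : z * (GG q m ε (-z) + GG q m ε z) = 0 := by linear_combination -e2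
    rcases mul_eq_zero.1 this with h | h
    · exact absurd h hz0
    · linear_combination h
  have hGne : ∀ z ∈ ball (0 : ℂ) 1, z ≠ 0 → GG q m ε z ≠ 0 := by
    intro z hz hz0 hc
    have e1 := hodd z hz hz0
    rw [hc, neg_zero] at e1
    have e2 := hinj ⟨hz, hz0⟩ ⟨hneg z hz, neg_ne_zero.2 hz0⟩ (hc.trans e1.symm)
    have : z = 0 := by linear_combination (1 / 2) * e2
    exact hz0 this
  have hyne : ∀ w ∈ ball (0 : ℂ) 1, yy q m ε w ≠ 0 := by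
    intro w hw
    obtain ⟨z, hz, rfl⟩ := hsq w hw
    by_cases hz0 : z = 0
    · rw [hz0]; simp [yy]
    · rw [← hG z hz hz0]
      exact mul_ne_zero hz0 (hGne z hz hz0)
  have hff : ∀ z ∈ ball (0 : ℂ) 1, z ≠ 0 → ff q m ε (z ^ 2) * GG q m ε z ^ 2 = 1 := by
    intro z hz hz0
    have hg := hGne z hz hz0
    rw [ff_eq, ← hG z hz hz0]
    field_simp
  have hf0 : ff q m ε 0 = 0 := by rw [ff_eq, zero_div]
  have hfne : ∀ z ∈ ball (0 : ℂ) 1, z ≠ 0 → ff q m ε (z ^ 2) ≠ 0 := by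
    intro z hz hz0 hc
    have := hff z hz hz0
    rw [hc, zero_mul] at this
    exact zero_ne_one this
  refine ⟨?_, ?_, hf0, ?_⟩
  · have : ff q m ε = fun w => w / (yy q m ε w) ^ 2 := rfl
    rw [this]
    exact differentiableOn_id.div (hdy.pow 2) (fun w hw => pow_ne_zero 2 (hyne w hw))
  · intro w1 hw1 w2 hw2 he
    obtain ⟨z1, hz1, rfl⟩ := hsq w1 hw1
    obtain ⟨z2, hz2, rfl⟩ := hsq w2 hw2
    by_cases h1z : z1 = 0
    · by_cases h2z : z2 = 0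
      · rw [h1z, h2z]
      · exfalso
        rw [h1z, zero_pow two_ne_zero, hf0] at he
        exact hfne z2 hz2 h2z he.symm
    · by_cases h2z : z2 = 0
      · exfalso
        rw [h2z, zero_pow two_ne_zero, hf0] at he
        exact hfne z1 hz1 h1z he
      · have e1 := hff z1 hz1 h1z
        have e2 := hff z2 hz2 h2z
        rw [he] at e1
        have e3 : ff q m ε (z2 ^ 2) * (GG q m ε z1 ^ 2 - GG q m ε z2 ^ 2) = 0 := by
          linear_combination e1 - e2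
        have e4 : GG q m ε z1 ^ 2 = GG q m ε z2 ^ 2 := by
          rcases mul_eq_zero.1 e3 with h | h
          · exact absurd h (hfne z2 hz2 h2z)
          · linear_combination h
        rcases sq_eq_sq_iff_eq_or_eq_neg.1 e4 with h | h
        · have := hinj ⟨hz1, h1z⟩ ⟨hz2, h2z⟩ h
          rw [this]
        · rw [← hodd z2 hz2 h2z] at h
          have := hinj ⟨hz1, h1z⟩ ⟨hneg z2 hz2, neg_ne_zero.2 h2z⟩ h
          rw [this, neg_sq]
  · have hmem : ball (0 : ℂ) 1 ∈ 𝓝 (0 : ℂ) := ball_mem_nhds _ one_pos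
    have hdh : DifferentiableAt ℂ (fun w => 1 / (yy q m ε w) ^ 2) 0 := by
      have h5 : DifferentiableAt ℂ (yy q m ε) 0 := hdy.differentiableAt hmem
      refine DifferentiableAt.div (differentiableAt_const _) (h5.pow 2) ?_
      rw [hy0]; norm_num
    have h6 := (hasDerivAt_id (0 : ℂ)).mul hdh.hasDerivAt
    have h7 : (fun w => w / (yy q m ε w) ^ 2) = (id * fun w => 1 / (yy q m ε w) ^ 2) := by
      funext w
      simp only [Pi.mul_apply, id]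
      ring
    have h8 : ff q m ε = fun w => w / (yy q m ε w) ^ 2 := rfl
    rw [h8, h7, h6.deriv, hy0]
    simp

end Pool.Agent.H33R3.Bom.V323
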